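import Mathlib
import Pool.Agent.H55.Mark

namespace Pool.Agent.Results.MP_95a664_lc.NoMinimal

open Set

universe u

/-- ideals of subsets of `X` -/
def IsIdeal {X : Type} (I : Set (Set X)) : Prop :=
  ∅ ∈ I ∧ (∀ A ∈ I, ∀ B, B ⊆ A → B ∈ I) ∧ ∀ A ∈ I, ∀ B ∈ I, A ∪ B ∈ I

/-- `P ≤_T Q`: some map `Q → P` sends cofinal sets to cofinal sets -/
def TukeyLE (P : Type u) (Q : Type) [PartialOrder P] [PartialOrder Q] : Prop :=
  ∃ f : Q → P, ∀ B : Set Q, IsCofinal B → IsCofinal (f '' B)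

/-- `Q` is `I`-cohesive, for an ideal `I` whose union is all of `X` -/
def Cohesive {X : Type} (I : Set (Set X)) (Q : Type) [PartialOrder Q] : Prop :=
  ∃ q : X → Q, ∀ S : Set X, S ∉ I → ¬ BddAbove (q '' S)

/-- An ideal `I` for which no poset captures `I`-cohesiveness of directed sets. -/
theorem result : ∃ (X : Type) (I : Set (Set X)), IsIdeal I ∧ ⋃₀ I = univ ∧ univ ∉ I ∧
    ∀ (P : Type u) [PartialOrder P], ¬ ∀ (Q : Type) [PartialOrder Q] [Nonempty Q]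
      [IsDirectedOrder Q], (TukeyLE P Q ↔ Cohesive I Q) := by
  let W := Pool.Agent.H55.Mark.W
  obtain ⟨a0⟩ : Nonempty W := inferInstance
  have hb : ∀ f : ℕ → W, ∃ c, ∀ n, f n < c := Pool.Agent.H55.Suit.P13_omega1.1
  have hI : (univ : Set (ℕ × W)) ∉ {S : Set (ℕ × W) | ∃ n a, ∀ p ∈ S, p.1 ≤ n ∨ p.2 ≤ a} := by
    rintro ⟨n, a, h⟩
    obtain ⟨c, hc⟩ := hb fun _ => a
    rcases h (n + 1, c) trivial with h | h
    · exact absurd h (by simp)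
    · exact absurd h (hc 0).not_ge
  refine ⟨ℕ × W, {S | ∃ n a, ∀ p ∈ S, p.1 ≤ n ∨ p.2 ≤ a}, ⟨⟨0, a0, fun _ h => h.elim⟩,
    fun A ⟨n, a, h⟩ B hB => ⟨n, a, fun p hp => h p (hB hp)⟩, ?_⟩, ?_, hI, ?_⟩
  · rintro A ⟨n, a, h⟩ B ⟨m, b, k⟩
    refine ⟨max n m, max a b, ?_⟩
    rintro p (hp | hp)
    · exact (h p hp).imp le_max_of_le_left le_max_of_le_left
    · exact (k p hp).imp le_max_of_le_right le_max_of_le_right
  · refine eq_univ_of_forall fun p => ⟨{p}, ⟨p.1, p.2, ?_⟩, rfl⟩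
    rintro _ rfl
    exact Or.inl le_rfl
  · intro P _ h
    obtain ⟨f, hf⟩ := (h ℕ).2 ⟨Prod.fst, fun S hS ⟨n, hn⟩ =>
      hS ⟨n, a0, fun p hp => Or.inl (hn ⟨p, hp, rfl⟩)⟩⟩
    obtain ⟨g, hg⟩ := (h W).2 ⟨Prod.snd, fun S hS ⟨a, ha⟩ =>
      hS ⟨0, a, fun p hp => Or.inr (ha ⟨p, hp, rfl⟩)⟩⟩
    have h1 : ∀ p : P, ∃ a : W, ∀ b, a ≤ b → p ≤ g b := by
      intro p
      by_contra hc
      push Not at hc
      obtain ⟨_, ⟨b, hb, rfl⟩, h2⟩ := hg {b | ¬ p ≤ g b} (fun a => by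
        obtain ⟨b, h1, h2⟩ := hc a
        exact ⟨b, h2, h1⟩) p
      exact hb h2
    choose a ha using h1
    obtain ⟨c, hc⟩ := hb fun n => a (f n)
    have htop : ∀ p : P, p ≤ g c := fun p => by
      obtain ⟨_, ⟨n, -, rfl⟩, h2⟩ := hf univ (fun n => ⟨n, trivial, le_rfl⟩) p
      exact h2.trans (ha _ c (hc n).le)
    obtain ⟨q, hq⟩ := (h Unit).1 ⟨fun _ => g c, fun B hB p => by
      obtain ⟨x, hx, -⟩ := hB ()
      exact ⟨_, ⟨x, hx, rfl⟩, htop p⟩⟩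
    exact hq univ hI ⟨(), fun _ _ => le_rfl⟩

end Pool.Agent.Results.MP_95a664_lc.NoMinimal
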